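import Mathlib

/-!
# A modular lattice that embeds into no complete lattice within its quasivariety

The lattice is the reduced power (modulo the cofinite filter) of the lattice of finite-dimensional
subspaces of a countably infinite dimensional space.  It satisfies a quasi-identity expressing a
form of Dedekind finiteness; every complete lattice that contains it violates this quasi-identity,
by the Knaster-Tarski fixed point theorem.
-/

namespace Pool.Agent.Results.MP_019b27_al.NoCompleteExtension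

universe u

/-- Lattice terms in the variables `x₀, x₁, x₂, …`. -/
inductive LTerm : Type
  | var : ℕ → LTerm
  | sup : LTerm → LTerm → LTerm
  | inf : LTerm → LTerm → LTerm

/-- The value of a lattice term under an assignment of the variables. -/
def LTerm.eval {L : Type u} [Lattice L] (v : ℕ → L) : LTerm → L
  | LTerm.var n => v n
  | LTerm.sup s t => s.eval v ⊔ t.eval v
  | LTerm.inf s t => s.eval v ⊓ t.eval v

/-- A quasi-identity `(s₁ = t₁ ∧ … ∧ sₙ = tₙ) ⇒ s = t` between lattice terms. -/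
structure QuasiIdentity where
  /-- the finite list of premises `sᵢ = tᵢ` -/
  prem : List (LTerm × LTerm)
  /-- the conclusion `s = t` -/
  concl : LTerm × LTerm

/-- The quasi-identity `q` holds in the lattice `L`. -/
def QuasiIdentity.Holds (q : QuasiIdentity) (L : Type u) [Lattice L] : Prop :=
  ∀ v : ℕ → L, (∀ e ∈ q.prem, e.1.eval v = e.2.eval v) → q.concl.1.eval v = q.concl.2.eval v

/-- `K ∈ Q(L)`: the lattice `K` satisfies every quasi-identity that holds in `L`. -/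
def InQuasivariety (L : Type) [Lattice L] (K : Type u) [Lattice K] : Prop :=
  ∀ q : QuasiIdentity, q.Holds L → q.Holds K

/-! ### The quasi-identity -/

section poly

variable {L : Type u} [Lattice L]

/-- first stage -/
def z2 (_y1 y2 y3 _y4 z : L) : L := (z ⊔ y3) ⊓ y2

/-- the map `z ↦ (z : t)` -/
def ff (y1 y2 y3 y4 z : L) : L := ((((z2 y1 y2 y3 y4 z) ⊔ y1) ⊓ y4) ⊔ y2) ⊓ y1

/-- The concrete form of the quasi-identity. -/
def QI (L : Type u) [Lattice L] : Prop :=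
  ∀ y1 y2 y3 y4 z : L,
    y1 ⊔ y3 = y1 ⊔ y2 → y1 ⊓ y3 = y1 ⊓ y2 → y2 ⊔ y3 = y1 ⊔ y2 → y2 ⊓ y3 = y1 ⊓ y2 →
    y4 ⊔ y2 = y1 ⊔ y2 → y4 ⊓ y2 = y1 ⊓ y2 → ff y1 y2 y3 y4 z = z →
    z2 y1 y2 y3 y4 z ⊓ (y4 ⊔ y1) = z2 y1 y2 y3 y4 z → y1 ⊓ y4 = y1 ⊓ y2

end poly

open LTerm in
/-- The quasi-identity as a formal object. -/
def qi : QuasiIdentity where
  prem :=
    [(sup (var 1) (var 3), sup (var 1) (var 2)),
     (inf (var 1) (var 3), inf (var 1) (var 2)),
     (sup (var 2) (var 3), sup (var 1) (var 2)),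
     (inf (var 2) (var 3), inf (var 1) (var 2)),
     (sup (var 4) (var 2), sup (var 1) (var 2)),
     (inf (var 4) (var 2), inf (var 1) (var 2)),
     (inf (sup (inf (sup (inf (sup (var 0) (var 3)) (var 2)) (var 1)) (var 4)) (var 2)) (var 1),
        var 0),
     (inf (inf (sup (var 0) (var 3)) (var 2)) (sup (var 4) (var 1)),
        inf (sup (var 0) (var 3)) (var 2))]
  concl := (inf (var 1) (var 4), inf (var 1) (var 2))

theorem qi_holds_iff (L : Type u) [Lattice L] : qi.Holds L ↔ QI L := by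
  constructor
  · intro h y1 y2 y3 y4 z h1 h2 h3 h4 h5 h6 h7 h8
    have := h (fun n => match n with
      | 0 => z
      | 1 => y1
      | 2 => y2
      | 3 => y3
      | _ => y4)
    simp only [qi, List.mem_cons, List.not_mem_nil, or_false, forall_eq_or_imp, forall_eq,
      LTerm.eval] at this
    exact this ⟨h1, h2, h3, h4, h5, h6, h7, h8⟩
  · intro h v hv
    simp only [qi, List.mem_cons, List.not_mem_nil, or_false, forall_eq_or_imp, forall_eq,
      LTerm.eval] at hv ⊢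
    obtain ⟨h1, h2, h3, h4, h5, h6, h7, h8⟩ := hv
    exact h (v 1) (v 2) (v 3) (v 4) (v 0) h1 h2 h3 h4 h5 h6 h7 h8

/-- The quasi-identity holds in every lattice with a strictly monotone integer valued modular
valuation. -/
theorem QI_of_valuation {L : Type u} [Lattice L] (l : L → ℤ)
    (hmod : ∀ a b : L, l (a ⊔ b) + l (a ⊓ b) = l a + l b)
    (hs : ∀ a b : L, a ≤ b → l a = l b → a = b) : QI L := by
  intro y1 y2 y3 y4 z h1 h2 h3 h4 h5 h6 h7 h8
  have hvz : y1 ⊓ y2 ≤ z := by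
    rw [← h7]
    unfold ff
    exact le_inf (inf_le_right.trans le_sup_right) inf_le_left
  have hz1 : z ≤ y1 := by
    rw [← h7]; exact inf_le_right
  set v := y1 ⊓ y2 with hv
  set w := y1 ⊔ y2 with hw
  set a := z2 y1 y2 y3 y4 z with ha
  have ea : a = (z ⊔ y3) ⊓ y2 := rfl
  -- z ⊓ y3 = v
  have e1 : z ⊓ y3 = v := le_antisymm (by rw [← h2]; exact inf_le_inf_right _ hz1)
    (le_inf hvz (by rw [← h2]; exact inf_le_right))
  have e2 : (z ⊔ y3) ⊔ y2 = w := le_antisymm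
    (sup_le (sup_le (hz1.trans le_sup_left) (by rw [← h1]; exact le_sup_right)) le_sup_right)
    (by rw [← h3]; exact sup_le le_sup_right (le_sup_right.trans le_sup_left))
  have m1 := hmod z y3
  rw [e1] at m1
  have m2 := hmod (z ⊔ y3) y2
  rw [e2, ← ea] at m2
  have m3 := hmod y2 y3
  rw [h3, h4] at m3
  -- l a = l z
  have hva : v ≤ a := by
    rw [ea]; exact le_inf (hvz.trans le_sup_left) inf_le_right
  have ha2 : a ≤ y2 := inf_le_right
  have e3 : a ⊓ y1 = v := le_antisymm (le_inf inf_le_right (inf_le_left.trans ha2))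
    (le_inf hva inf_le_left)
  have m4 := hmod a y1
  rw [e3] at m4
  set b := (a ⊔ y1) ⊓ y4 with hb
  have ha41 : a ≤ y4 ⊔ y1 := by rw [← h8]; exact inf_le_right
  have e4 : (a ⊔ y1) ⊔ y4 = y1 ⊔ y4 := le_antisymm
    (sup_le (sup_le (ha41.trans (sup_comm y4 y1).le) le_sup_left) le_sup_right)
    (sup_le (le_sup_right.trans le_sup_left) le_sup_right)
  have m5 := hmod (a ⊔ y1) y4
  rw [e4, ← hb] at m5
  have m6 := hmod y1 y4
  have hvb : v ≤ b := le_inf (inf_le_left.trans le_sup_right) (by rw [← h6]; exact inf_le_left)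
  have e5 : b ⊓ y2 = v := le_antisymm (by rw [← h6]; exact inf_le_inf_right _ inf_le_right)
    (le_inf hvb inf_le_right)
  have m7 := hmod b y2
  rw [e5] at m7
  have hbw : b ≤ w := inf_le_right.trans (by rw [← h5]; exact le_sup_left)
  have e6 : (b ⊔ y2) ⊔ y1 = w := le_antisymm
    (sup_le (sup_le hbw le_sup_right) le_sup_left)
    (sup_le le_sup_right (le_sup_right.trans le_sup_left))
  have m8 := hmod (b ⊔ y2) y1
  have e7 : (b ⊔ y2) ⊓ y1 = z := h7
  rw [e6, e7] at m8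
  have m9 := hmod y1 y2
  rw [← hv, ← hw] at m9
  have hvk : v ≤ y1 ⊓ y4 := le_inf inf_le_left (by rw [← h6]; exact inf_le_left)
  symm
  apply hs _ _ hvk
  linarith

/-- The quasi-identity fails in every complete lattice that contains suitable elements. -/
theorem fixed_point {K : Type u} [CompleteLattice K] (hK : QI K)
    (y1 y2 y3 y4 : K) (d : ℕ → K)
    (h1 : y1 ⊔ y3 = y1 ⊔ y2) (h2 : y1 ⊓ y3 = y1 ⊓ y2) (h3 : y2 ⊔ y3 = y1 ⊔ y2)
    (h4 : y2 ⊓ y3 = y1 ⊓ y2) (h5 : y4 ⊔ y2 = y1 ⊔ y2) (h6 : y4 ⊓ y2 = y1 ⊓ y2)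
    (hd : ∀ j, ff y1 y2 y3 y4 (d (j + 1)) ≤ d j)
    (hd1 : z2 y1 y2 y3 y4 (d 1) ≤ y4 ⊔ y1) : y1 ⊓ y4 = y1 ⊓ y2 := by
  have mono2 : ∀ z z' : K, z ≤ z' → z2 y1 y2 y3 y4 z ≤ z2 y1 y2 y3 y4 z' := fun z z' h =>
    inf_le_inf_right _ (sup_le_sup_right h _)
  have mono : ∀ z z' : K, z ≤ z' → ff y1 y2 y3 y4 z ≤ ff y1 y2 y3 y4 z' := fun z z' h =>
    inf_le_inf_right _ (sup_le_sup_right (inf_le_inf_right _ (sup_le_sup_right
      (mono2 z z' h) _)) _)
  let F : K →o K := ⟨ff y1 y2 y3 y4, fun z z' h => mono z z' h⟩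
  set z := OrderHom.lfp F with hz
  have hfix : ff y1 y2 y3 y4 z = z := F.map_lfp
  have hle : z ≤ ⨅ j, d j := by
    apply OrderHom.lfp_le
    refine le_iInf fun j => ?_
    exact (mono _ _ (iInf_le d (j + 1))).trans (hd j)
  have hz2 : z2 y1 y2 y3 y4 z ≤ y4 ⊔ y1 := (mono2 _ _ (hle.trans (iInf_le d 1))).trans hd1
  exact hK y1 y2 y3 y4 z h1 h2 h3 h4 h5 h6 hfix (inf_eq_left.2 hz2)

/-! ### The lattice -/

/-- the ambient space -/
abbrev W := (ℕ → ℚ) × (ℕ → ℚ)

/-- The sublattice of finite-dimensional subspaces. -/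
def FinSub : Sublattice (Submodule ℚ W) where
  carrier := {S | FiniteDimensional ℚ S}
  supClosed' := fun S hS T hT => by
    have := hS.out; have := hT.out
    exact Submodule.finite_sup S T
  infClosed' := fun S hS T hT => by
    have := hS.out
    exact Submodule.finiteDimensional_inf_left S T

/-- dimension -/
noncomputable def dim (S : FinSub) : ℤ := (Module.finrank ℚ (S : Submodule ℚ W) : ℤ)

theorem dim_mod (a b : FinSub) : dim (a ⊔ b) + dim (a ⊓ b) = dim a + dim b := by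
  have : FiniteDimensional ℚ (a : Submodule ℚ W) := a.2
  have : FiniteDimensional ℚ (b : Submodule ℚ W) := b.2
  have h := Submodule.finrank_sup_add_finrank_inf_eq (a : Submodule ℚ W) (b : Submodule ℚ W)
  unfold dim
  exact_mod_cast h

theorem dim_strict (a b : FinSub) (hab : a ≤ b) (h : dim a = dim b) : a = b := by
  have : FiniteDimensional ℚ (b : Submodule ℚ W) := b.2
  apply Subtype.ext
  apply Submodule.eq_of_le_of_finrank_eq hab
  unfold dim at h
  exact_mod_cast h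

theorem QI_FinSub : QI FinSub := QI_of_valuation dim dim_mod dim_strict

/-- The lattice: sequences of finite-dimensional subspaces modulo eventual equality. -/
abbrev LL := Filter.Germ (Filter.atTop : Filter ℕ) FinSub

theorem germ_sup (f g : ℕ → FinSub) : ((f : LL) ⊔ (g : LL)) = ((fun n => f n ⊔ g n : ℕ → FinSub) : LL) :=
  rfl

theorem germ_inf (f g : ℕ → FinSub) : ((f : LL) ⊓ (g : LL)) = ((fun n => f n ⊓ g n : ℕ → FinSub) : LL) :=
  rfl

theorem modular_FinSub (x y z : FinSub) (h : x ≤ z) : (x ⊔ y) ⊓ z ≤ x ⊔ y ⊓ z := by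
  have := IsModularLattice.sup_inf_le_assoc_of_le (x := (x : Submodule ℚ W))
    (y : Submodule ℚ W) (z := (z : Submodule ℚ W)) h
  exact this

theorem modular_LL : IsModularLattice LL := by
  constructor
  intro x y z
  induction x using Filter.Germ.inductionOn with | _ x
  induction y using Filter.Germ.inductionOn with | _ y
  induction z using Filter.Germ.inductionOn with | _ z
  intro h
  rw [germ_sup, germ_inf, germ_inf, germ_sup, Filter.Germ.coe_le]
  rw [Filter.Germ.coe_le] at h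
  filter_upwards [h] with n hn
  exact modular_FinSub _ _ _ hn

theorem QI_LL : QI LL := by
  intro y1 y2 y3 y4 z
  induction y1 using Filter.Germ.inductionOn with | _ y1
  induction y2 using Filter.Germ.inductionOn with | _ y2
  induction y3 using Filter.Germ.inductionOn with | _ y3
  induction y4 using Filter.Germ.inductionOn with | _ y4
  induction z using Filter.Germ.inductionOn with | _ z
  unfold ff z2
  simp only [germ_sup, germ_inf, Filter.Germ.coe_eq]
  intro h1 h2 h3 h4 h5 h6 h7 h8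
  filter_upwards [h1, h2, h3, h4, h5, h6, h7, h8] with n g1 g2 g3 g4 g5 g6 g7 g8
  exact QI_FinSub (y1 n) (y2 n) (y3 n) (y4 n) (z n) g1 g2 g3 g4 g5 g6 g7 g8

/-! ### The concrete elements -/

/-- sequences vanishing from `n` on -/
def V (n : ℕ) : Submodule ℚ (ℕ → ℚ) where
  carrier := {x | ∀ i, n ≤ i → x i = 0}
  add_mem' := fun {x y} hx hy i hi => by simp [hx i hi, hy i hi]
  zero_mem' := fun i _ => rfl
  smul_mem' := fun c x hx i hi => by simp [hx i hi]

/-- the left shift -/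
def sh : (ℕ → ℚ) →ₗ[ℚ] (ℕ → ℚ) where
  toFun := fun x i => x (i + 1)
  map_add' := fun _ _ => rfl
  map_smul' := fun _ _ => rfl

theorem V_fin (n : ℕ) : FiniteDimensional ℚ (V n) := by
  let f : V n →ₗ[ℚ] (Fin n → ℚ) :=
    { toFun := fun x i => x.1 i
      map_add' := fun _ _ => rfl
      map_smul' := fun _ _ => rfl }
  apply FiniteDimensional.of_injective f
  intro x y hxy
  apply Subtype.ext
  funext i
  by_cases hi : i < n
  · exact congrFun hxy ⟨i, hi⟩
  · rw [x.2 i (not_lt.1 hi), y.2 i (not_lt.1 hi)]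

/-- the image of `V n` under a linear map, as a finite-dimensional subspace -/
def im (f : (ℕ → ℚ) →ₗ[ℚ] W) (n : ℕ) : FinSub := ⟨(V n).map f, by
  have := V_fin n
  exact (inferInstance : FiniteDimensional ℚ ((V n).map f))⟩

/-- `x ↦ (x, 0)` -/
def i1 : (ℕ → ℚ) →ₗ[ℚ] W := LinearMap.inl ℚ _ _
/-- `x ↦ (0, x)` -/
def i2 : (ℕ → ℚ) →ₗ[ℚ] W := LinearMap.inr ℚ _ _
/-- `x ↦ (x, x)` -/
def i3 : (ℕ → ℚ) →ₗ[ℚ] W := LinearMap.prod LinearMap.id LinearMap.id
/-- `x ↦ (x, sh x)` -/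
def i4 : (ℕ → ℚ) →ₗ[ℚ] W := LinearMap.prod LinearMap.id sh

theorem mem_im1 (n : ℕ) (p : W) : p ∈ (im i1 n : Submodule ℚ W) ↔ p.1 ∈ V n ∧ p.2 = 0 := by
  constructor
  · rintro ⟨x, hx, rfl⟩
    exact ⟨hx, rfl⟩
  · rintro ⟨h1, h2⟩
    exact ⟨p.1, h1, Prod.ext rfl h2.symm⟩

theorem mem_im2 (n : ℕ) (p : W) : p ∈ (im i2 n : Submodule ℚ W) ↔ p.2 ∈ V n ∧ p.1 = 0 := by
  constructor
  · rintro ⟨x, hx, rfl⟩
    exact ⟨hx, rfl⟩
  · rintro ⟨h1, h2⟩
    exact ⟨p.2, h1, Prod.ext h2.symm rfl⟩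

theorem mem_im3 (n : ℕ) (p : W) : p ∈ (im i3 n : Submodule ℚ W) ↔ p.1 ∈ V n ∧ p.2 = p.1 := by
  constructor
  · rintro ⟨x, hx, rfl⟩
    exact ⟨hx, rfl⟩
  · rintro ⟨h1, h2⟩
    exact ⟨p.1, h1, Prod.ext rfl h2.symm⟩

theorem mem_im4 (n : ℕ) (p : W) : p ∈ (im i4 n : Submodule ℚ W) ↔ p.1 ∈ V n ∧ p.2 = sh p.1 := by
  constructor
  · rintro ⟨x, hx, rfl⟩
    exact ⟨hx, rfl⟩
  · rintro ⟨h1, h2⟩
    exact ⟨p.1, h1, Prod.ext rfl h2.symm⟩

theorem sh_mem {n : ℕ} {x : ℕ → ℚ} (hx : x ∈ V n) : sh x ∈ V n := fun i hi =>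
  hx (i + 1) (by omega)

theorem mem_sup' (a b : FinSub) (p : W) : p ∈ ((a ⊔ b : FinSub) : Submodule ℚ W) ↔
    ∃ q ∈ (a : Submodule ℚ W), ∃ r ∈ (b : Submodule ℚ W), q + r = p := Submodule.mem_sup

theorem mem_inf' (a b : FinSub) (p : W) : p ∈ ((a ⊓ b : FinSub) : Submodule ℚ W) ↔
    p ∈ (a : Submodule ℚ W) ∧ p ∈ (b : Submodule ℚ W) := Submodule.mem_inf

theorem ext' {a b : FinSub} (h : ∀ p : W, p ∈ (a : Submodule ℚ W) ↔ p ∈ (b : Submodule ℚ W)) :
    a = b := Subtype.ext (Submodule.ext h)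

theorem mem_top12 (n : ℕ) (p : W) : p ∈ ((im i1 n ⊔ im i2 n : FinSub) : Submodule ℚ W) ↔
    p.1 ∈ V n ∧ p.2 ∈ V n := by
  rw [mem_sup']
  constructor
  · rintro ⟨q, hq, r, hr, rfl⟩
    rw [mem_im1] at hq
    rw [mem_im2] at hr
    simp only [Prod.fst_add, Prod.snd_add, hq.2, hr.2, add_zero, zero_add]
    exact ⟨hq.1, hr.1⟩
  · rintro ⟨h1, h2⟩
    exact ⟨(p.1, 0), (mem_im1 n _).2 ⟨h1, rfl⟩, (0, p.2), (mem_im2 n _).2 ⟨h2, rfl⟩, by
      ext <;> simp⟩

theorem mem_bot12 (n : ℕ) (p : W) : p ∈ ((im i1 n ⊓ im i2 n : FinSub) : Submodule ℚ W) ↔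
    p = 0 := by
  rw [mem_inf', mem_im1, mem_im2]
  constructor
  · rintro ⟨⟨_, h2⟩, _, h3⟩
    exact Prod.ext h3 h2
  · rintro rfl
    exact ⟨⟨(V n).zero_mem, rfl⟩, (V n).zero_mem, rfl⟩

theorem c1 (n : ℕ) : im i1 n ⊔ im i3 n = im i1 n ⊔ im i2 n := by
  apply ext'
  intro p
  rw [mem_top12, mem_sup']
  constructor
  · rintro ⟨q, hq, r, hr, rfl⟩
    rw [mem_im1] at hq
    rw [mem_im3] at hr
    simp only [Prod.fst_add, Prod.snd_add, hq.2, hr.2, zero_add]
    exact ⟨(V n).add_mem hq.1 hr.1, hr.1⟩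
  · rintro ⟨h1, h2⟩
    exact ⟨(p.1 - p.2, 0), (mem_im1 n _).2 ⟨(V n).sub_mem h1 h2, rfl⟩, (p.2, p.2),
      (mem_im3 n _).2 ⟨h2, rfl⟩, by ext <;> simp⟩

theorem c2 (n : ℕ) : im i1 n ⊓ im i3 n = im i1 n ⊓ im i2 n := by
  apply ext'
  intro p
  rw [mem_bot12, mem_inf', mem_im1, mem_im3]
  constructor
  · rintro ⟨⟨_, h2⟩, _, h3⟩
    exact Prod.ext (h3.symm.trans h2) h2
  · rintro rfl
    exact ⟨⟨(V n).zero_mem, rfl⟩, (V n).zero_mem, rfl⟩

theorem c3 (n : ℕ) : im i2 n ⊔ im i3 n = im i1 n ⊔ im i2 n := by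
  apply ext'
  intro p
  rw [mem_top12, mem_sup']
  constructor
  · rintro ⟨q, hq, r, hr, rfl⟩
    rw [mem_im2] at hq
    rw [mem_im3] at hr
    simp only [Prod.fst_add, Prod.snd_add, hq.2, hr.2, zero_add]
    exact ⟨hr.1, (V n).add_mem hq.1 hr.1⟩
  · rintro ⟨h1, h2⟩
    exact ⟨(0, p.2 - p.1), (mem_im2 n _).2 ⟨(V n).sub_mem h2 h1, rfl⟩, (p.1, p.1),
      (mem_im3 n _).2 ⟨h1, rfl⟩, by ext <;> simp⟩

theorem c4 (n : ℕ) : im i2 n ⊓ im i3 n = im i1 n ⊓ im i2 n := by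
  apply ext'
  intro p
  rw [mem_bot12, mem_inf', mem_im2, mem_im3]
  constructor
  · rintro ⟨⟨_, h2⟩, _, h3⟩
    exact Prod.ext h2 (h3.trans h2)
  · rintro rfl
    exact ⟨⟨(V n).zero_mem, rfl⟩, (V n).zero_mem, rfl⟩

theorem c5 (n : ℕ) : im i4 n ⊔ im i2 n = im i1 n ⊔ im i2 n := by
  apply ext'
  intro p
  rw [mem_top12, mem_sup']
  constructor
  · rintro ⟨q, hq, r, hr, rfl⟩
    rw [mem_im4] at hq
    rw [mem_im2] at hr
    simp only [Prod.fst_add, Prod.snd_add, hq.2, hr.2, add_zero]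
    exact ⟨hq.1, (V n).add_mem (sh_mem hq.1) hr.1⟩
  · rintro ⟨h1, h2⟩
    exact ⟨(p.1, sh p.1), (mem_im4 n _).2 ⟨h1, rfl⟩, (0, p.2 - sh p.1),
      (mem_im2 n _).2 ⟨(V n).sub_mem h2 (sh_mem h1), rfl⟩, by ext <;> simp⟩

theorem c6 (n : ℕ) : im i4 n ⊓ im i2 n = im i1 n ⊓ im i2 n := by
  apply ext'
  intro p
  rw [mem_bot12, mem_inf', mem_im4, mem_im2]
  constructor
  · rintro ⟨⟨_, h2⟩, _, h3⟩
    refine Prod.ext h3 ?_
    rw [h2, h3]; rfl
  · rintro rfl
    exact ⟨⟨(V n).zero_mem, rfl⟩, (V n).zero_mem, rfl⟩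

/-- for `m ≥ 1`: `ff` of `V (m) × 0` is at most `V (m + 1) × 0` -/
theorem c7 (n m : ℕ) : ff (im i1 n) (im i2 n) (im i3 n) (im i4 n) (im i1 m) ≤ im i1 (m + 1) := by
  show ((ff (im i1 n) (im i2 n) (im i3 n) (im i4 n) (im i1 m) : FinSub) : Submodule ℚ W) ≤
    (im i1 (m + 1) : Submodule ℚ W)
  intro p hp
  unfold ff z2 at hp
  rw [mem_inf', mem_sup'] at hp
  obtain ⟨⟨q, hq, r, hr, rfl⟩, hp1⟩ := hp
  rw [mem_inf', mem_sup'] at hq
  obtain ⟨⟨s, hs, t, ht, hst⟩, hq4⟩ := hq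
  rw [mem_inf', mem_sup'] at hs
  obtain ⟨⟨a, ha, b, hb, hab⟩, hs2⟩ := hs
  rw [mem_im1] at ha ht hp1
  rw [mem_im2] at hr hs2
  rw [mem_im3] at hb
  rw [mem_im4] at hq4
  rw [mem_im1]
  refine ⟨?_, hp1.2⟩
  -- (q + r).1 = q.1, sh q.1 = q.2 = s.2 = b.2 = b.1 = - a.1
  have e1 : (q + r).1 = q.1 := by simp [hr.2]
  have e2 : sh q.1 = s.2 := by
    rw [← hq4.2, ← hst]; simp [ht.2]
  have e3 : s.2 = b.1 := by
    rw [← hab]; simp [ha.2, hb.2]
  have e4 : b.1 = - a.1 := by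
    have : a.1 + b.1 = 0 := by
      have := congrArg Prod.fst hab
      simp only [Prod.fst_add] at this
      rw [this, hs2.2]
    exact eq_neg_of_add_eq_zero_right this
  have e5 : sh q.1 ∈ V m := by
    rw [e2, e3, e4]; exact (V m).neg_mem ha.1
  rw [e1]
  intro i hi
  obtain ⟨j, rfl⟩ : ∃ j, i = j + 1 := ⟨i - 1, by omega⟩
  exact e5 j (by omega)

theorem c8 (n : ℕ) : z2 (im i1 (n + 1)) (im i2 (n + 1)) (im i3 (n + 1)) (im i4 (n + 1)) (im i1 n) ≤
    im i4 (n + 1) ⊔ im i1 (n + 1) := by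
  show ((z2 (im i1 (n + 1)) (im i2 (n + 1)) (im i3 (n + 1)) (im i4 (n + 1)) (im i1 n) : FinSub) :
    Submodule ℚ W) ≤ ((im i4 (n + 1) ⊔ im i1 (n + 1) : FinSub) : Submodule ℚ W)
  intro p hp
  unfold z2 at hp
  rw [mem_inf', mem_sup'] at hp
  obtain ⟨⟨a, ha, b, hb, hab⟩, hs2⟩ := hp
  rw [mem_im1] at ha
  rw [mem_im3] at hb
  rw [mem_im2] at hs2
  have e3 : p.2 = b.1 := by
    rw [← hab]; simp [ha.2, hb.2]
  have e4 : b.1 = - a.1 := by
    have : a.1 + b.1 = 0 := by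
      have := congrArg Prod.fst hab
      simp only [Prod.fst_add] at this
      rw [this, hs2.2]
    exact eq_neg_of_add_eq_zero_right this
  have e5 : p.2 ∈ V n := by
    rw [e3, e4]; exact (V n).neg_mem ha.1
  let x : ℕ → ℚ := fun i => match i with
    | 0 => 0
    | j + 1 => p.2 j
  have hx : x ∈ V (n + 1) := by
    intro i hi
    obtain ⟨j, rfl⟩ : ∃ j, i = j + 1 := ⟨i - 1, by omega⟩
    exact e5 j (by omega)
  have hsx : sh x = p.2 := rfl
  rw [mem_sup']
  refine ⟨(x, p.2), (mem_im4 _ _).2 ⟨hx, hsx.symm⟩, (-x, 0), (mem_im1 _ _).2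
    ⟨(V (n + 1)).neg_mem hx, rfl⟩, ?_⟩
  ext i
  · simp [hs2.2]
  · simp

theorem c9 (n : ℕ) : im i1 (n + 1) ⊓ im i4 (n + 1) ≠ im i1 (n + 1) ⊓ im i2 (n + 1) := by
  intro h
  let x : ℕ → ℚ := fun i => if i = 0 then 1 else 0
  have hx : x ∈ V (n + 1) := by
    intro i hi
    show (if i = 0 then (1 : ℚ) else 0) = 0
    rw [if_neg (by omega)]
  have hsx : sh x = 0 := by
    funext i
    show (if i + 1 = 0 then (1 : ℚ) else 0) = 0
    rw [if_neg (by omega)]
  have h1 : ((x, 0) : W) ∈ ((im i1 (n + 1) ⊓ im i4 (n + 1) : FinSub) : Submodule ℚ W) := by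
    rw [mem_inf', mem_im1, mem_im4]
    exact ⟨⟨hx, rfl⟩, hx, hsx.symm⟩
  rw [h, mem_bot12] at h1
  have h2 : x = 0 := congrArg Prod.fst h1
  have h3 : x 0 = 0 := by rw [h2]; rfl
  have h4 : x 0 = 1 := rfl
  rw [h4] at h3
  exact one_ne_zero h3

/-- **Theorem.**  There is a modular lattice `L` such that no complete lattice `K` belonging to the
quasivariety generated by `L` contains a sublattice isomorphic to `L`. -/
theorem result : ∃ (L : Type) (_ : Lattice L), IsModularLattice L ∧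
    ∀ (K : Type u) [CompleteLattice K], InQuasivariety L K →
      ∀ f : LatticeHom L K, ¬ Function.Injective f := by
  refine ⟨LL, inferInstance, modular_LL, ?_⟩
  intro K _ hQ f hf
  have hK : QI K := (qi_holds_iff K).1 (hQ qi ((qi_holds_iff LL).2 QI_LL))
  let Y (g : (ℕ → ℚ) →ₗ[ℚ] W) : LL := ((fun n => im g n : ℕ → FinSub) : LL)
  let D (j : ℕ) : LL := ((fun n => im i1 (n - j) : ℕ → FinSub) : LL)
  have map_ff : ∀ a b c d z : LL, f (ff a b c d z) = ff (f a) (f b) (f c) (f d) (f z) := by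
    intro a b c d z
    simp only [ff, z2, map_sup, map_inf]
  have map_z2 : ∀ a b c d z : LL, f (z2 a b c d z) = z2 (f a) (f b) (f c) (f d) (f z) := by
    intro a b c d z
    simp only [z2, map_sup, map_inf]
  have key := fixed_point hK (f (Y i1)) (f (Y i2)) (f (Y i3)) (f (Y i4)) (fun j => f (D j))
    (by rw [← map_sup, ← map_sup]; exact congrArg f (congrArg (fun h : ℕ → FinSub => (h : LL)) (funext fun n => c1 n)))
    (by rw [← map_inf, ← map_inf]; exact congrArg f (congrArg (fun h : ℕ → FinSub => (h : LL)) (funext fun n => c2 n)))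
    (by rw [← map_sup, ← map_sup]; exact congrArg f (congrArg (fun h : ℕ → FinSub => (h : LL)) (funext fun n => c3 n)))
    (by rw [← map_inf, ← map_inf]; exact congrArg f (congrArg (fun h : ℕ → FinSub => (h : LL)) (funext fun n => c4 n)))
    (by rw [← map_sup, ← map_sup]; exact congrArg f (congrArg (fun h : ℕ → FinSub => (h : LL)) (funext fun n => c5 n)))
    (by rw [← map_inf, ← map_inf]; exact congrArg f (congrArg (fun h : ℕ → FinSub => (h : LL)) (funext fun n => c6 n)))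
    (by
      intro j
      rw [← map_ff]
      apply OrderHomClass.mono f
      show ((fun n => ff (im i1 n) (im i2 n) (im i3 n) (im i4 n) (im i1 (n - (j + 1))) :
        ℕ → FinSub) : LL) ≤ ((fun n => im i1 (n - j) : ℕ → FinSub) : LL)
      rw [Filter.Germ.coe_le]
      filter_upwards [Filter.eventually_ge_atTop (j + 1)] with n hn
      have h := c7 n (n - (j + 1))
      have e : n - (j + 1) + 1 = n - j := by omega
      rwa [e] at h)
    (by
      rw [← map_z2, ← map_sup]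
      apply OrderHomClass.mono f
      show ((fun n => z2 (im i1 n) (im i2 n) (im i3 n) (im i4 n) (im i1 (n - 1)) :
        ℕ → FinSub) : LL) ≤ ((fun n => im i4 n ⊔ im i1 n : ℕ → FinSub) : LL)
      rw [Filter.Germ.coe_le]
      filter_upwards [Filter.eventually_ge_atTop 1] with n hn
      obtain ⟨m, rfl⟩ : ∃ m, n = m + 1 := ⟨n - 1, by omega⟩
      exact c8 m)
  rw [← map_inf, ← map_inf] at key
  have key2 := hf key
  have key3 : ((fun n => im i1 n ⊓ im i4 n : ℕ → FinSub) : LL) =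
      ((fun n => im i1 n ⊓ im i2 n : ℕ → FinSub) : LL) := key2
  rw [Filter.Germ.coe_eq] at key3
  obtain ⟨n, hn, hn1⟩ := (key3.and (Filter.eventually_ge_atTop 1)).exists
  obtain ⟨m, rfl⟩ : ∃ m, n = m + 1 := ⟨n - 1, by omega⟩
  exact c9 m hn

end Pool.Agent.Results.MP_019b27_al.NoCompleteExtension
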